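import Mathlib
import Pool.Agent.J4H89.WU.Stm

/-!
# One step of simple random walk: elementary properties of `avg`
-/

namespace Pool.Agent.J4H2.WU

open MeasureTheory Filter Topology
open Pool.Agent.TH968.UST Pool.Agent.J4H89.WU
open scoped ENNReal unitInterval

section avg

variable {G : SimpleGraph ℕ} {v : ℕ}

theorem avg_mono {f g : ℕ → ℝ≥0∞} (h : ∀ w, G.Adj v w → f w ≤ g w) :
    avg G f v ≤ avg G g v := by
  classical
  unfold avg
  apply ENNReal.div_le_div_right
  apply ENNReal.tsum_le_tsum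
  intro w
  split_ifs with hw
  · exact h w hw
  · exact le_rfl

theorem avg_congr {f g : ℕ → ℝ≥0∞} (h : ∀ w, G.Adj v w → f w = g w) :
    avg G f v = avg G g v :=
  le_antisymm (avg_mono fun w hw => (h w hw).le) (avg_mono fun w hw => (h w hw).ge)

theorem avg_add (f g : ℕ → ℝ≥0∞) :
    avg G (fun w => f w + g w) v = avg G f v + avg G g v := by
  classical
  unfold avg
  rw [← ENNReal.add_div, ← ENNReal.tsum_add]
  congr 1
  apply tsum_congr
  intro w
  split_ifs
  · rfl
  · rw [add_zero]

theorem avg_tsum (f : ℕ → ℕ → ℝ≥0∞) :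
    avg G (fun w => ∑' s, f w s) v = ∑' s, avg G (fun w => f w s) v := by
  classical
  unfold avg
  simp only [div_eq_mul_inv]
  rw [ENNReal.tsum_mul_right, ENNReal.tsum_comm]
  congr 1
  apply tsum_congr
  intro w
  split_ifs
  · rfl
  · rw [tsum_zero]

theorem deg_ne_zero (h : ∃ w, G.Adj v w) :
    open Classical in (∑' w, if G.Adj v w then (1 : ℝ≥0∞) else 0) ≠ 0 := by
  classical
  obtain ⟨w, hw⟩ := h
  intro h0
  rw [ENNReal.tsum_eq_zero] at h0
  have := h0 w
  rw [if_pos hw] at this
  exact one_ne_zero this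

theorem deg_ne_top (h : (G.neighborSet v).Finite) :
    open Classical in (∑' w, if G.Adj v w then (1 : ℝ≥0∞) else 0) ≠ ∞ := by
  classical
  rw [tsum_eq_sum (s := h.toFinset)]
  · apply ne_of_lt
    rw [ENNReal.sum_lt_top]
    intro w _
    split_ifs
    · exact ENNReal.one_lt_top
    · exact ENNReal.zero_lt_top
  · intro w hw
    rw [if_neg]
    intro h1
    exact hw (h.mem_toFinset.2 h1)

theorem avg_const (h : (G.neighborSet v).Finite) (h' : ∃ w, G.Adj v w) (c : ℝ≥0∞) :
    avg G (fun _ => c) v = c := by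
  classical
  have h0 := deg_ne_zero h'
  have h1 := deg_ne_top h
  unfold avg
  have e : (∑' w, if G.Adj v w then c else 0) = c * ∑' w, if G.Adj v w then (1 : ℝ≥0∞) else 0 := by
    rw [← ENNReal.tsum_mul_left]
    apply tsum_congr
    intro w
    split_ifs
    · rw [mul_one]
    · rw [mul_zero]
  rw [e]
  exact ENNReal.mul_div_cancel_right h0 h1

theorem avg_mul (c : ℝ≥0∞) (f : ℕ → ℝ≥0∞) :
    avg G (fun w => c * f w) v = c * avg G f v := by
  classical
  unfold avg
  rw [← mul_div_assoc, ← ENNReal.tsum_mul_left]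
  congr 1
  apply tsum_congr
  intro w
  split_ifs
  · rfl
  · rw [mul_zero]

theorem avg_zero : avg G (fun _ => 0) v = 0 := by
  classical
  unfold avg
  simp

theorem avg_sum (t : Finset ℕ) (f : ℕ → ℕ → ℝ≥0∞) :
    avg G (fun w => ∑ k ∈ t, f k w) v = ∑ k ∈ t, avg G (f k) v := by
  classical
  induction t using Finset.induction_on with
  | empty => simpa using avg_zero (G := G) (v := v)
  | insert a s ha ih =>
    simp only [Finset.sum_insert ha]
    rw [avg_add, ih]

theorem avg_tendsto (h : (G.neighborSet v).Finite) (h' : ∃ w, G.Adj v w)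
    {f : ℕ → ℕ → ℝ≥0∞} {g : ℕ → ℝ≥0∞}
    (hf : ∀ w, G.Adj v w → Tendsto (fun n => f n w) atTop (𝓝 (g w))) :
    Tendsto (fun n => avg G (f n) v) atTop (𝓝 (avg G g v)) := by
  classical
  have h0 := deg_ne_zero h'
  unfold avg
  have e : ∀ k : ℕ → ℝ≥0∞, (∑' w, if G.Adj v w then k w else 0) =
      ∑ w ∈ h.toFinset, if G.Adj v w then k w else 0 := by
    intro k
    apply tsum_eq_sum
    intro w hw
    rw [if_neg]
    intro h1
    exact hw (h.mem_toFinset.2 h1)
  simp only [e]
  apply ENNReal.Tendsto.div_const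
  · apply tendsto_finsetSum
    intro w hw
    have hw' : G.Adj v w := h.mem_toFinset.1 hw
    simp only [if_pos hw']
    exact hf w hw'
  · right
    rw [← e]
    exact h0

theorem avg_ne_zero {f : ℕ → ℝ≥0∞} (h : avg G f v ≠ 0) : ∃ w, G.Adj v w ∧ f w ≠ 0 := by
  classical
  by_contra hc
  push Not at hc
  apply h
  rw [avg_congr (g := fun _ => 0) hc]
  exact avg_zero

end avg

/-- all vertices of a component which is not a single vertex have neighbours -/
theorem nb {G : SimpleGraph ℕ} {x v : ℕ} (h : ∃ w, G.Adj x w) (hv : v ∈ comp G x) :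
    ∃ w, G.Adj v w := by
  by_cases hxv : x = v
  · rw [← hxv]; exact h
  · have hr : G.Reachable v x := (show G.Reachable x v from hv).symm
    obtain ⟨p⟩ := hr
    cases p with
    | nil => exact absurd rfl hxv
    | cons hw _ => exact ⟨_, hw⟩

theorem comp_nb {G : SimpleGraph ℕ} {x v w : ℕ} (hv : v ∈ comp G x) (h : G.Adj v w) :
    w ∈ comp G x := (show G.Reachable x v from hv).trans h.reachable

theorem self_comp {G : SimpleGraph ℕ} (x : ℕ) : x ∈ comp G x := SimpleGraph.Reachable.refl x

end Pool.Agent.J4H2.WU
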