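import Mathlib
import Pool.Agent.J4H2.WU.Avg

/-!
# JOB GOOD: the summable subsequence
-/

namespace Pool.Agent.J4H2.WU

open MeasureTheory Filter Topology
open Pool.Agent.TH968.UST Pool.Agent.J4H89.WU
open scoped ENNReal unitInterval

theorem t_GOOD.{w} (hREC : S_REC) (hMDL : S_MDL) (hIDL : S_IDL) : S_GOOD.{w} := by
  classical
  obtain ⟨-, mdl, mreach⟩ := hMDL
  intro Ω _ P _ G ρ hG hρ hLF hU hR
  -- the measurable functions
  have hd : ∀ n : ℕ, Measurable fun ω => dl (G ω) n (ρ ω) := by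
    intro n
    have h1 : Measurable fun p : SimpleGraph ℕ × ℕ => dl p.1 n p.2 :=
      measurable_from_prod_countable_left fun x => mdl n x
    exact h1.comp (hG.prodMk hρ)
  have hm : ∀ n : ℕ, Measurable fun ω => min (dl (G ω) n (ρ ω)) 1 := fun n =>
    (hd n).min measurable_const
  have hlim : Tendsto (fun n => ∫⁻ ω, min (dl (G ω) n (ρ ω)) 1 ∂P) atTop (𝓝 0) := by
    have h1 := tendsto_lintegral_of_dominated_convergence (μ := P)
      (F := fun n ω => min (dl (G ω) n (ρ ω)) 1) (f := fun _ => 0) (fun _ => 1) hm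
      (fun n => Eventually.of_forall fun ω => min_le_right _ _) (by simp) ?_
    · simpa using h1
    · filter_upwards [hLF, hR] with ω h2 h3
      have h4 := hREC (G ω) (ρ ω) h2 h3
      have h5 := h4.min (tendsto_const_nhds (x := (1 : ℝ≥0∞)))
      rwa [min_eq_left (zero_le_one)] at h5
  -- choice of the subsequence
  have hch : ∀ m : ℕ, ∃ n : ℕ, 1 ≤ n ∧
      ((m : ℝ≥0∞) + 1) * ∫⁻ ω, min (dl (G ω) n (ρ ω)) 1 ∂P ≤ (2⁻¹ : ℝ≥0∞) ^ m := by
    intro m
    have hc : (m : ℝ≥0∞) + 1 ≠ ∞ := by simp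
    have h1 : Tendsto (fun n => ((m : ℝ≥0∞) + 1) * ∫⁻ ω, min (dl (G ω) n (ρ ω)) 1 ∂P) atTop
        (𝓝 (((m : ℝ≥0∞) + 1) * 0)) :=
      ENNReal.Tendsto.const_mul hlim (Or.inr hc)
    rw [mul_zero] at h1
    have h2 : (0 : ℝ≥0∞) < (2⁻¹ : ℝ≥0∞) ^ m := by
      apply ENNReal.pow_pos
      simp
    have h3 := (h1.eventually (gt_mem_nhds h2)).and (eventually_ge_atTop 1)
    obtain ⟨n, hn1, hn2⟩ := h3.exists
    exact ⟨n, hn2, hn1.le⟩
  choose ns hns1 hns2 using hch
  refine ⟨ns, hns1, ?_⟩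
  -- the root is good
  have hint : ∫⁻ ω, ∑' m : ℕ, ((m : ℝ≥0∞) + 1) * min (dl (G ω) (ns m) (ρ ω)) 1 ∂P ≠ ∞ := by
    rw [lintegral_tsum fun m => ((hm (ns m)).const_mul _).aemeasurable]
    have h1 : ∀ m : ℕ, ∫⁻ ω, ((m : ℝ≥0∞) + 1) * min (dl (G ω) (ns m) (ρ ω)) 1 ∂P ≤
        (2⁻¹ : ℝ≥0∞) ^ m := by
      intro m
      rw [lintegral_const_mul _ (hm (ns m))]
      exact hns2 m
    refine ne_top_of_le_ne_top ?_ (ENNReal.tsum_le_tsum h1)
    rw [ENNReal.tsum_geometric]
    simp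
  have hmeas : Measurable fun ω => ∑' m : ℕ, ((m : ℝ≥0∞) + 1) * min (dl (G ω) (ns m) (ρ ω)) 1 :=
    Measurable.tsum fun m => (hm (ns m)).const_mul _
  have hroot : ∀ᵐ ω ∂P, Good ns (G ω) (ρ ω) := by
    filter_upwards [ae_lt_top hmeas hint] with ω h
    exact h.ne
  -- mass transport
  have hgm : ∀ y : ℕ, MeasurableSet {G : SimpleGraph ℕ | Good ns G y} := by
    intro y
    have h1 : Measurable fun G : SimpleGraph ℕ =>
        ∑' m : ℕ, ((m : ℝ≥0∞) + 1) * min (dl G (ns m) y) 1 :=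
      Measurable.tsum fun m => ((mdl (ns m) y).min measurable_const).const_mul _
    exact (h1 (measurableSet_singleton ∞)).compl
  let f : SimpleGraph ℕ → ℕ → ℕ → ℝ≥0∞ := fun G _ y => if Good ns G y then 0 else 1
  have hf1 : ∀ x y, Measurable fun G => f G x y := by
    intro x y
    exact Measurable.ite (hgm y) measurable_const measurable_const
  have hf2 : ∀ G G' x φ, CIso G G' x φ → ∀ y ∈ comp G x, ∀ z ∈ comp G x,
      f G' (φ y) (φ z) = f G y z := by
    intro G G' x φ h y _ z hz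
    have h1 : Good ns G' (φ z) ↔ Good ns G z := by
      unfold Good
      have h2 : ∀ m, dl G' (ns m) (φ z) = dl G (ns m) z := fun m => (hIDL G G' x φ h (ns m) z hz).2
      simp only [h2]
    simp only [f, h1]
  have hmtp := hU f hf1 hf2
  have hr0 : ∫⁻ ω, ∑' x : comp (G ω) (ρ ω), f (G ω) x (ρ ω) ∂P = 0 := by
    rw [← lintegral_zero]
    apply lintegral_congr_ae
    filter_upwards [hroot] with ω h
    simp [f, h]
  rw [hr0] at hmtp
  -- measurability of the left side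
  have hcm : ∀ x : ℕ, MeasurableSet {ω | x ∈ comp (G ω) (ρ ω)} := by
    intro x
    have e : {ω | x ∈ comp (G ω) (ρ ω)} =
        ⋃ y : ℕ, {ω | ρ ω = y} ∩ G ⁻¹' {G : SimpleGraph ℕ | G.Reachable y x} := by
      ext ω
      rw [Set.mem_iUnion]
      constructor
      · intro h
        exact ⟨ρ ω, rfl, h⟩
      · rintro ⟨y, hy, h⟩
        have hy' : ρ ω = y := hy
        have h' : (G ω).Reachable y x := h
        rw [← hy'] at h'
        exact h'
    rw [e]
    refine MeasurableSet.iUnion fun y => MeasurableSet.inter ?_ ?_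
    · exact hρ (measurableSet_singleton y)
    · exact hG (mreach y x)
  have hlm : Measurable fun ω => ∑' x : comp (G ω) (ρ ω), f (G ω) (ρ ω) x := by
    have e : (fun ω => ∑' x : comp (G ω) (ρ ω), f (G ω) (ρ ω) x) =
        fun ω => ∑' x : ℕ, if x ∈ comp (G ω) (ρ ω) then f (G ω) 0 x else 0 := by
      funext ω
      rw [tsum_subtype (comp (G ω) (ρ ω)) fun x => f (G ω) (ρ ω) x]
      apply tsum_congr
      intro x
      rw [Set.indicator_apply]
    rw [e]
    exact Measurable.tsum fun x => Measurable.ite (hcm x) ((hf1 0 x).comp hG) measurable_const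
  have hl0 : ∀ᵐ ω ∂P, ∑' x : comp (G ω) (ρ ω), f (G ω) (ρ ω) x = 0 :=
    (lintegral_eq_zero_iff hlm).1 hmtp
  filter_upwards [hl0] with ω h x hx
  rw [ENNReal.tsum_eq_zero] at h
  have h1 := h ⟨x, hx⟩
  by_contra hc
  simp [f, hc] at h1

end Pool.Agent.J4H2.WU
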