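import Mathlib
import Pool.Agent.J4H2.WU.Avg

/-!
# JOB WALK
-/

namespace Pool.Agent.J4H2.WU

open MeasureTheory Filter Topology
open Pool.Agent.TH968.UST Pool.Agent.J4H89.WU
open scoped ENNReal unitInterval

theorem pk_succ (G : SimpleGraph ℕ) (s k x : ℕ) : pk G s (k + 1) x = avg G (pk G s k) x := rfl

theorem pk_zero (G : SimpleGraph ℕ) (s x : ℕ) : pk G s 0 x = if x = s then 1 else 0 := by
  unfold pk
  split_ifs <;> rfl

theorem pk_tsum {G : SimpleGraph ℕ} {x : ℕ} (h : LocFin G x) (h' : ∃ w, G.Adj x w) (k : ℕ) :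
    ∀ v ∈ comp G x, ∑' s, pk G s k v = 1 := by
  induction k with
  | zero =>
    intro v _
    simp only [pk_zero]
    exact tsum_ite_eq' v _
  | succ k ih =>
    intro v hv
    simp only [pk_succ]
    rw [← avg_tsum (fun w s => pk G s k w)]
    rw [avg_congr (g := fun _ => 1) (fun w hw => ih w (comp_nb hv hw))]
    exact avg_const (h v hv) (nb h' hv) 1

theorem pk_reach {G : SimpleGraph ℕ} {s : ℕ} (k : ℕ) :
    ∀ x, pk G s k x ≠ 0 → G.Reachable x s := by
  induction k with
  | zero =>
    intro x hx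
    rw [pk_zero] at hx
    by_cases h : x = s
    · rw [h]
    · rw [if_neg h] at hx
      exact absurd rfl hx
  | succ k ih =>
    intro x hx
    rw [pk_succ] at hx
    obtain ⟨w, hw, hw'⟩ := avg_ne_zero hx
    exact hw.reachable.trans (ih w hw')

theorem pk_fin {G : SimpleGraph ℕ} {s : ℕ} (h : LocFin G s) (k : ℕ) :
    {y | pk G s k y ≠ 0}.Finite := by
  induction k with
  | zero =>
    apply (Set.finite_singleton s).subset
    intro y hy
    have hy : pk G s 0 y ≠ 0 := hy
    rw [pk_zero] at hy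
    by_contra hc
    rw [if_neg (show ¬ y = s from hc)] at hy
    exact hy rfl
  | succ k ih =>
    have : ({y | pk G s (k + 1) y ≠ 0} : Set ℕ) ⊆
        ⋃ w ∈ {y | pk G s k y ≠ 0}, G.neighborSet w := by
      intro y hy
      have hy : pk G s (k + 1) y ≠ 0 := hy
      rw [pk_succ] at hy
      obtain ⟨w, hw, hw'⟩ := avg_ne_zero hy
      exact Set.mem_biUnion (show w ∈ {y | pk G s k y ≠ 0} from hw') hw.symm
    refine Set.Finite.subset (Set.Finite.biUnion ih fun w hw => ?_) this
    exact h w (pk_reach k w hw).symm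

theorem ces_ne_zero {G : SimpleGraph ℕ} {n x s : ℕ} (h : ces G n x s ≠ 0) :
    ∃ k ∈ Finset.range n, pk G s k x ≠ 0 := by
  by_contra hc
  push Not at hc
  apply h
  unfold ces
  rw [Finset.sum_eq_zero hc]
  exact ENNReal.zero_div

theorem t_WALK : S_WALK := by
  refine ⟨?_, ?_, ?_⟩
  · intro G x n hn h h'
    have hn0 : (n : ℝ≥0∞) ≠ 0 := by
      rw [Nat.cast_ne_zero]; omega
    unfold ces
    simp only [div_eq_mul_inv]
    rw [ENNReal.tsum_mul_right]
    rw [Summable.tsum_finsetSum (fun _ _ => ENNReal.summable)]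
    rw [Finset.sum_congr rfl (fun k _ => pk_tsum h h' k x (self_comp x))]
    rw [Finset.sum_const, Finset.card_range, nsmul_eq_mul, mul_one]
    exact ENNReal.mul_inv_cancel hn0 (ENNReal.natCast_ne_top n)
  · intro G s n h
    have : ({y | ces G n y s ≠ 0} : Set ℕ) ⊆ ⋃ k ∈ Finset.range n, {y | pk G s k y ≠ 0} := by
      intro y hy
      obtain ⟨k, hk, hk'⟩ := ces_ne_zero hy
      exact Set.mem_biUnion (show k ∈ (Finset.range n : Set ℕ) from hk) hk'
    exact Set.Finite.subset (Set.Finite.biUnion (Finset.finite_toSet _) fun k _ => pk_fin h k) this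
  · intro G n x s h
    obtain ⟨k, _, hk'⟩ := ces_ne_zero h
    exact pk_reach k x hk'

end Pool.Agent.J4H2.WU
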