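import Mathlib
import Pool.Agent.J4H2.WU.Walk

/-!
# JOB REC: on a recurrent graph the Cesàro means of the walks from two neighbours merge
-/

namespace Pool.Agent.J4H2.WU

open MeasureTheory Filter Topology
open Pool.Agent.TH968.UST Pool.Agent.J4H89.WU
open scoped ENNReal unitInterval

theorem ad_self (a : ℝ≥0∞) : ad a a = 0 := by unfold ad; simp

theorem ad_add (a b c d : ℝ≥0∞) : ad (a + b) (c + d) ≤ a + c + ad b d := by
  unfold ad
  have h1 : a + b - (c + d) ≤ a + (b - d) := by
    rw [tsub_le_iff_right]
    calc a + b ≤ a + ((b - d) + d) := by gcongr; exact le_tsub_add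
      _ ≤ a + (b - d) + (c + d) := by
        rw [add_assoc]; gcongr; exact le_add_self
  have h2 : c + d - (a + b) ≤ c + (d - b) := by
    rw [tsub_le_iff_right]
    calc c + d ≤ c + ((d - b) + b) := by gcongr; exact le_tsub_add
      _ ≤ c + (d - b) + (a + b) := by
        rw [add_assoc]; gcongr; exact le_add_self
  calc a + b - (c + d) + (c + d - (a + b)) ≤ (a + (b - d)) + (c + (d - b)) := add_le_add h1 h2
    _ = a + c + ((b - d) + (d - b)) := by ring

theorem ad_div {a b : ℝ≥0∞} {n : ℕ} (hn : 1 ≤ n) : ad (a / n) (b / n) = ad a b / n := by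
  have hn0 : (n : ℝ≥0∞) ≠ 0 := by
    rw [Nat.cast_ne_zero]; omega
  unfold ad
  rw [ENNReal.add_div, ENNReal.sub_div (fun _ _ => hn0), ENNReal.sub_div (fun _ _ => hn0)]

theorem avg_ad {G : SimpleGraph ℕ} {v : ℕ} (f g : ℕ → ℝ≥0∞) :
    ad (avg G f v) (avg G g v) ≤ avg G (fun w => ad (f w) (g w)) v := by
  unfold ad
  have key : ∀ f g : ℕ → ℝ≥0∞, avg G f v - avg G g v ≤ avg G (fun w => f w - g w) v := by
    intro f g
    rw [tsub_le_iff_right, ← avg_add]
    exact avg_mono fun w _ => le_tsub_add
  rw [avg_add (fun w => f w - g w) (fun w => g w - f w)]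
  exact add_le_add (key f g) (key g f)

/-- probability that the walk from `v` does not visit `y` at the times `0, ..., k` -/
noncomputable def qq (G : SimpleGraph ℕ) (y : ℕ) : ℕ → ℕ → ℝ≥0∞
  | 0, v => if v = y then 0 else 1
  | k + 1, v => if v = y then 0 else avg G (qq G y k) v

theorem qq_self (G : SimpleGraph ℕ) (y k : ℕ) : qq G y k y = 0 := by
  cases k <;> simp [qq]

theorem qq_succ {G : SimpleGraph ℕ} {y v : ℕ} (h : v ≠ y) (k : ℕ) :
    qq G y (k + 1) v = avg G (qq G y k) v := by
  simp [qq, h]

theorem qq_zero {G : SimpleGraph ℕ} {y v : ℕ} (h : v ≠ y) : qq G y 0 v = 1 := by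
  simp [qq, h]

/-- sum of the first `n` laws -/
noncomputable def SS (G : SimpleGraph ℕ) (n v s : ℕ) : ℝ≥0∞ := ∑ k ∈ Finset.range n, pk G s k v

theorem SS_succ (G : SimpleGraph ℕ) (n v s : ℕ) :
    SS G (n + 1) v s = (if v = s then 1 else 0) + avg G (fun w => SS G n w s) v := by
  unfold SS
  rw [Finset.sum_range_succ', add_comm, pk_zero, avg_sum]
  rfl

theorem SS_succ' (G : SimpleGraph ℕ) (n v s : ℕ) :
    SS G (n + 1) v s = pk G s n v + SS G n v s := by
  unfold SS
  rw [Finset.sum_range_succ, add_comm]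

section

variable {G : SimpleGraph ℕ} {x y : ℕ}

/-- distance of the sums from `v` and from `y` -/
noncomputable def DD (G : SimpleGraph ℕ) (y n v : ℕ) : ℝ≥0∞ := ∑' s, ad (SS G n v s) (SS G n y s)

theorem DD_le (h : LocFin G x) (h' : ∃ w, G.Adj x w) (hy : y ∈ comp G x) (n : ℕ) :
    ∀ v ∈ comp G x, DD G y n v ≤ 2 * ∑ k ∈ Finset.range n, qq G y k v := by
  induction n with
  | zero =>
    intro v _
    unfold DD SS
    simp [ad_self]
  | succ n ih =>
    intro v hv
    by_cases hvy : v = y
    · rw [hvy]
      unfold DD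
      simp [ad_self]
    · have h1 : DD G y (n + 1) v ≤ 2 + avg G (DD G y n) v := by
        have e1 : ∀ s, ad (SS G (n + 1) v s) (SS G (n + 1) y s) ≤
            (if v = s then 1 else 0) + pk G s n y +
              avg G (fun w => ad (SS G n w s) (SS G n y s)) v := by
          intro s
          rw [SS_succ G n v s, SS_succ' G n y s]
          refine (ad_add _ _ _ _).trans ?_
          gcongr
          conv_lhs => rw [← avg_const (h v hv) (nb h' hv) (SS G n y s)]
          exact avg_ad _ _
        unfold DD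
        refine (ENNReal.tsum_le_tsum e1).trans ?_
        rw [ENNReal.tsum_add, ENNReal.tsum_add, pk_tsum h h' n y hy, tsum_ite_eq' v]
        rw [← avg_tsum (fun w s => ad (SS G n w s) (SS G n y s))]
        exact le_of_eq (by rw [one_add_one_eq_two])
      refine h1.trans ?_
      have h2 : avg G (DD G y n) v ≤ 2 * ∑ k ∈ Finset.range n, qq G y (k + 1) v := by
        calc avg G (DD G y n) v
            ≤ avg G (fun w => 2 * ∑ k ∈ Finset.range n, qq G y k w) v :=
              avg_mono fun w hw => ih w (comp_nb hv hw)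
          _ = 2 * avg G (fun w => ∑ k ∈ Finset.range n, qq G y k w) v := avg_mul _ _
          _ = 2 * ∑ k ∈ Finset.range n, avg G (qq G y k) v := by rw [avg_sum]
          _ = 2 * ∑ k ∈ Finset.range n, qq G y (k + 1) v := by
            congr 1
            exact Finset.sum_congr rfl fun k _ => (qq_succ hvy k).symm
      rw [Finset.sum_range_succ', qq_zero hvy, mul_add, mul_one, add_comm]
      gcongr

theorem qq_le_one (h : LocFin G x) (h' : ∃ w, G.Adj x w) (k : ℕ) :
    ∀ v ∈ comp G x, qq G y k v ≤ 1 := by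
  induction k with
  | zero =>
    intro v _
    by_cases hvy : v = y
    · rw [hvy, qq_self]; exact zero_le_one
    · rw [qq_zero hvy]
  | succ k ih =>
    intro v hv
    by_cases hvy : v = y
    · rw [hvy, qq_self]; exact zero_le_one
    · rw [qq_succ hvy]
      calc avg G (qq G y k) v ≤ avg G (fun _ => 1) v := avg_mono fun w hw => ih w (comp_nb hv hw)
        _ = 1 := avg_const (h v hv) (nb h' hv) 1

theorem qq_anti (h : LocFin G x) (h' : ∃ w, G.Adj x w) (k : ℕ) :
    ∀ v ∈ comp G x, qq G y (k + 1) v ≤ qq G y k v := by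
  induction k with
  | zero =>
    intro v hv
    by_cases hvy : v = y
    · rw [hvy, qq_self, qq_self]
    · rw [qq_zero hvy]
      exact qq_le_one h h' 1 v hv
  | succ k ih =>
    intro v hv
    by_cases hvy : v = y
    · rw [hvy, qq_self, qq_self]
    · rw [qq_succ hvy, qq_succ hvy]
      exact avg_mono fun w hw => ih w (comp_nb hv hw)

/-- probability that the walk from `v` never visits `y` -/
noncomputable def QQ (G : SimpleGraph ℕ) (y v : ℕ) : ℝ≥0∞ := ⨅ k, qq G y k v

theorem QQ_self : QQ G y y = 0 := by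
  unfold QQ
  simp [qq_self]

theorem qq_antitone (h : LocFin G x) (h' : ∃ w, G.Adj x w) {v : ℕ} (hv : v ∈ comp G x) :
    Antitone fun k => qq G y k v := antitone_nat_of_succ_le fun k => qq_anti h h' k v hv

theorem qq_tendsto (h : LocFin G x) (h' : ∃ w, G.Adj x w) {v : ℕ} (hv : v ∈ comp G x) :
    Tendsto (fun k => qq G y k v) atTop (𝓝 (QQ G y v)) :=
  tendsto_atTop_iInf (qq_antitone h h' hv)

theorem QQ_avg (h : LocFin G x) (h' : ∃ w, G.Adj x w) {v : ℕ} (hv : v ∈ comp G x) :
    QQ G y v ≤ avg G (QQ G y) v := by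
  by_cases hvy : v = y
  · rw [hvy, QQ_self]; exact zero_le
  · have h1 : Tendsto (fun k => avg G (qq G y k) v) atTop (𝓝 (avg G (QQ G y) v)) :=
      avg_tendsto (h v hv) (nb h' hv) fun w hw => qq_tendsto h h' (comp_nb hv hw)
    have h2 : Tendsto (fun k => qq G y (k + 1) v) atTop (𝓝 (QQ G y v)) :=
      (qq_tendsto h h' hv).comp (tendsto_add_atTop_nat 1)
    simp only [qq_succ hvy] at h2
    exact (tendsto_nhds_unique h2 h1).le

theorem QQ_le_one (h : LocFin G x) (h' : ∃ w, G.Adj x w) {v : ℕ} (hv : v ∈ comp G x) :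
    QQ G y v ≤ 1 := (iInf_le _ 0).trans (qq_le_one h h' 0 v hv)

theorem hit_self (G : SimpleGraph ℕ) (x n : ℕ) : hit G x n x = 1 := by
  cases n <;> simp [hit]

theorem hit_zero {v : ℕ} (hv : v ≠ x) : hit G x 0 v = 0 := by
  simp [hit, hv]

theorem hit_succ {v : ℕ} (hv : v ≠ x) (n : ℕ) : hit G x (n + 1) v = avg G (hit G x n) v := by
  simp [hit, hv]

theorem key (h : LocFin G x) (h' : ∃ w, G.Adj x w) (n : ℕ) :
    ∀ v ∈ comp G x, QQ G y v + hit G x n v ≤ QQ G y x + 1 := by
  induction n with
  | zero =>
    intro v hv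
    by_cases hvx : v = x
    · rw [hvx, hit_self]
    · rw [hit_zero hvx, add_zero]
      exact (QQ_le_one h h' hv).trans le_add_self
  | succ n ih =>
    intro v hv
    by_cases hvx : v = x
    · rw [hvx, hit_self]
    · rw [hit_succ hvx]
      calc QQ G y v + avg G (hit G x n) v
          ≤ avg G (QQ G y) v + avg G (hit G x n) v := by gcongr; exact QQ_avg h h' hv
        _ = avg G (fun w => QQ G y w + hit G x n w) v := (avg_add _ _).symm
        _ ≤ avg G (fun _ => QQ G y x + 1) v := avg_mono fun w hw => ih w (comp_nb hv hw)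
        _ = QQ G y x + 1 := avg_const (h v hv) (nb h' hv) _

open Classical in
/-- a number bounded by the average of numbers which are at most it, one of them being zero -/
theorem zero_of_avg {c : ℝ≥0∞} (hc : c ≠ ∞) (h : (G.neighborSet x).Finite) (hy : G.Adj x y)
    (h1 : c ≤ avg G (fun w => if w = y then 0 else c) x) : c = 0 := by
  by_contra h0
  have hd0 := deg_ne_zero ⟨y, hy⟩
  have hd1 := deg_ne_top h
  have e1 : avg G (fun w => if w = y then 0 else c) x + avg G (fun w => if w = y then c else 0) x
      = c := by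
    rw [← avg_add]
    rw [avg_congr (g := fun _ => c)]
    · exact avg_const h ⟨y, hy⟩ c
    · intro w _
      split_ifs <;> simp
  have h2 : avg G (fun w => if w = y then c else 0) x ≠ 0 := by
    unfold avg
    rw [tsum_eq_single y]
    · rw [if_pos hy]
      simp only [if_true]
      rw [ne_eq, ENNReal.div_eq_zero_iff, not_or]
      exact ⟨h0, hd1⟩
    · intro w hw
      simp only [if_neg hw, ite_self]
  have h3 : c + avg G (fun w => if w = y then c else 0) x ≤ c + 0 := by
    rw [add_zero]
    conv_rhs => rw [← e1]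
    gcongr
  rw [ENNReal.add_le_add_iff_left hc] at h3
  exact h2 (le_antisymm h3 zero_le)

theorem QQ_zero (h : LocFin G x) (hr : RecAt G x) (hy : G.Adj x y) : QQ G y x = 0 := by
  classical
  have h' : ∃ w, G.Adj x w := ⟨y, hy⟩
  have hx := self_comp (G := G) x
  have hQ1 : QQ G y x ≤ 1 := QQ_le_one h h' hx
  have hQt : QQ G y x ≠ ∞ := ne_top_of_le_ne_top ENNReal.one_ne_top hQ1
  apply zero_of_avg hQt (h x hx) hy
  -- the average of `QQ` over the neighbours
  have h1 : ∀ n, avg G (QQ G y) x + avg G (hit G x n) x ≤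
      avg G (fun w => if w = y then 0 else QQ G y x) x + 1 := by
    intro n
    rw [← avg_add]
    calc avg G (fun w => QQ G y w + hit G x n w) x
        ≤ avg G (fun w => (if w = y then 0 else QQ G y x) + 1) x := by
          apply avg_mono
          intro w hw
          by_cases hwy : w = y
          · rw [if_pos hwy, hwy, QQ_self]
            gcongr
            -- hit ≤ 1
            have : ∀ n, ∀ v ∈ comp G x, hit G x n v ≤ 1 := by
              intro n
              induction n with
              | zero =>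
                intro v _
                by_cases hvx : v = x
                · rw [hvx, hit_self]
                · rw [hit_zero hvx]; exact zero_le
              | succ n ih =>
                intro v hv
                by_cases hvx : v = x
                · rw [hvx, hit_self]
                · rw [hit_succ hvx]
                  calc avg G (hit G x n) v ≤ avg G (fun _ => 1) v :=
                        avg_mono fun w hw => ih w (comp_nb hv hw)
                    _ = 1 := avg_const (h v hv) (nb h' hv) 1
            exact this n y (comp_nb hx hy)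
          · rw [if_neg hwy]
            exact key h h' n w (comp_nb hx hw)
      _ = avg G (fun w => if w = y then 0 else QQ G y x) x + 1 := by
          rw [avg_add (fun w => if w = y then 0 else QQ G y x) (fun _ => 1),
            avg_const (h x hx) h' 1]
  have h2 : avg G (QQ G y) x + 1 ≤ avg G (fun w => if w = y then 0 else QQ G y x) x + 1 := by
    have hs := hr h'
    rw [← hs]
    conv_lhs => rw [ENNReal.add_iSup]
    apply iSup_le
    intro n
    rw [hs]
    exact h1 n
  rw [ENNReal.add_le_add_iff_right ENNReal.one_ne_top] at h2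
  exact (QQ_avg h h' hx).trans h2

/-- Cesàro means of a null sequence -/
theorem cesaro {q : ℕ → ℝ≥0∞} (hq : ∀ k, q k ≤ 1) (h0 : Tendsto q atTop (𝓝 0)) :
    Tendsto (fun n : ℕ => (2 * ∑ k ∈ Finset.range n, q k) / (n : ℝ≥0∞)) atTop (𝓝 0) := by
  have hqt : ∀ k, q k ≠ ∞ := fun k => ne_top_of_le_ne_top ENNReal.one_ne_top (hq k)
  have h1 : Tendsto (fun k => (q k).toReal) atTop (𝓝 0) := by
    have h5 := (ENNReal.tendsto_toReal ENNReal.zero_ne_top).comp h0
    rw [ENNReal.toReal_zero] at h5
    exact h5
  have h2 := h1.cesaro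
  have h3 : Tendsto (fun n : ℕ => 2 * ((n : ℝ)⁻¹ * ∑ k ∈ Finset.range n, (q k).toReal)) atTop
      (𝓝 0) := by
    simpa using h2.const_mul 2
  have h4 := ENNReal.tendsto_ofReal h3
  rw [ENNReal.ofReal_zero] at h4
  refine h4.congr' ?_
  filter_upwards [eventually_ge_atTop 1] with n hn
  have hn0 : (0 : ℝ) < n := by exact_mod_cast hn
  have e1 : (∑ k ∈ Finset.range n, q k) = ENNReal.ofReal (∑ k ∈ Finset.range n, (q k).toReal) := by
    rw [ENNReal.ofReal_sum_of_nonneg (fun _ _ => ENNReal.toReal_nonneg)]
    exact Finset.sum_congr rfl fun k _ => (ENNReal.ofReal_toReal (hqt k)).symm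
  rw [e1]
  have e2 : (2 : ℝ≥0∞) = ENNReal.ofReal 2 := by simp
  have e3 : (n : ℝ≥0∞) = ENNReal.ofReal (n : ℝ) := by simp
  rw [e3, e2, ← ENNReal.ofReal_mul (by norm_num), ← ENNReal.ofReal_div_of_pos hn0]
  congr 1
  field_simp

theorem pair (h : LocFin G x) (hr : RecAt G x) (hy : G.Adj x y) :
    Tendsto (fun n => ∑' s, ad (ces G n x s) (ces G n y s)) atTop (𝓝 0) := by
  have h' : ∃ w, G.Adj x w := ⟨y, hy⟩
  have hx := self_comp (G := G) x
  have h0 := qq_tendsto (y := y) h h' hx
  rw [QQ_zero h hr hy] at h0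
  have h1 := cesaro (fun k => qq_le_one h h' k x hx) h0
  refine tendsto_of_tendsto_of_tendsto_of_le_of_le' tendsto_const_nhds h1
    (Eventually.of_forall fun _ => zero_le) ?_
  filter_upwards [eventually_ge_atTop 1] with n hn
  have e : ∑' s, ad (ces G n x s) (ces G n y s) = DD G y n x / n := by
    unfold DD
    simp only [div_eq_mul_inv]
    rw [← ENNReal.tsum_mul_right]
    apply tsum_congr
    intro s
    rw [← div_eq_mul_inv, ← ad_div hn]
    rfl
  rw [e]
  exact ENNReal.div_le_div_right (DD_le h h' (comp_nb hx hy) n x hx) _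

end

theorem t_REC : S_REC := by
  classical
  intro G x h hr
  have hx := self_comp (G := G) x
  have hf := h x hx
  unfold dl
  have e : ∀ k : ℕ → ℝ≥0∞, (∑' w, if G.Adj x w then k w else 0) =
      ∑ w ∈ hf.toFinset, if G.Adj x w then k w else 0 := by
    intro k
    apply tsum_eq_sum
    intro w hw
    rw [if_neg]
    intro h1
    exact hw (hf.mem_toFinset.2 h1)
  simp only [e]
  have : Tendsto (fun n => ∑ w ∈ hf.toFinset, if G.Adj x w then
      ∑' s, ad (ces G n x s) (ces G n w s) else 0) atTop (𝓝 (∑ w ∈ hf.toFinset, 0)) := by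
    apply tendsto_finsetSum
    intro w hw
    have hw' : G.Adj x w := hf.mem_toFinset.1 hw
    simp only [if_pos hw']
    exact pair h hr hw'
  rw [Finset.sum_const_zero] at this
  exact this

end Pool.Agent.J4H2.WU
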